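import Mathlib

namespace H568R2

open Finset

/-- the vertices touched by the scopes indexed by `H` -/
def touched {m r : ℕ} (F : Fin m → Fin r → Fin m) (H : Finset (Fin m)) : Finset (Fin m) :=
  H.biUnion (fun i => univ.image (F i))

theorem expander (m : ℕ) (hm : 1 ≤ m) : ∃ F : Fin m → Fin 20 → Fin m,
    ∀ H : Finset (Fin m), m ≤ 4 * H.card → 3 * m ≤ 4 * (touched F H).card := by
  classical
  by_contra hcon
  push Not at hcon
  set P : Finset (Finset (Fin m) × Finset (Fin m)) :=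
    univ.filter (fun HW => m ≤ 4 * HW.1.card ∧ 4 * HW.2.card < 3 * m) with hP
  set Bad : Finset (Fin m) × Finset (Fin m) → Finset (Fin m → Fin 20 → Fin m) := fun HW =>
    Fintype.piFinset (fun i => if i ∈ HW.1 then Fintype.piFinset (fun _ => HW.2) else univ)
    with hBad
  have hcover : (univ : Finset (Fin m → Fin 20 → Fin m)) ⊆ P.biUnion Bad := by
    intro F _
    obtain ⟨H, hH, hW⟩ := hcon F
    rw [Finset.mem_biUnion]
    refine ⟨(H, touched F H), ?_, ?_⟩
    · rw [hP, Finset.mem_filter]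
      exact ⟨Finset.mem_univ _, hH, hW⟩
    · rw [hBad]
      simp only [Fintype.mem_piFinset]
      intro i
      by_cases hi : i ∈ H
      · rw [if_pos hi, Fintype.mem_piFinset]
        intro j
        exact Finset.mem_biUnion.2 ⟨i, hi, Finset.mem_image_of_mem _ (Finset.mem_univ j)⟩
      · rw [if_neg hi]; exact Finset.mem_univ _
  have hm0 : (0 : ℝ) < m := by exact_mod_cast hm
  have hcardBad : ∀ HW ∈ P, ((Bad HW).card : ℝ) ≤ ((m : ℝ) ^ 20) ^ m * (3 / 4) ^ (5 * m) := by
    rintro ⟨H, W⟩ hHW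
    rw [hP, Finset.mem_filter] at hHW
    obtain ⟨_, hH, hW⟩ := hHW
    simp only at hH hW
    have h1 : ((Bad (H, W)).card : ℝ) = ∏ i : Fin m, (if i ∈ H then ((W.card : ℝ)) ^ 20
        else (m : ℝ) ^ 20) := by
      rw [hBad, Fintype.card_piFinset]
      push_cast
      refine Finset.prod_congr rfl fun i _ => ?_
      by_cases hi : i ∈ H
      · simp [hi]
      · simp [hi]
    rw [h1]
    have h2 : ∀ i : Fin m, (if i ∈ H then ((W.card : ℝ)) ^ 20 else (m : ℝ) ^ 20) ≤
        (m : ℝ) ^ 20 * (if i ∈ H then (3 / 4 : ℝ) ^ 20 else 1) := by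
      intro i
      by_cases hi : i ∈ H
      · simp only [hi, if_true]
        rw [← mul_pow]
        apply pow_le_pow_left₀ (by positivity)
        have : (4 : ℝ) * W.card < 3 * m := by exact_mod_cast hW
        linarith
      · simp [hi]
    refine (Finset.prod_le_prod (fun i _ => by split_ifs <;> positivity)
      (fun i _ => h2 i)).trans ?_
    rw [Finset.prod_mul_distrib, Finset.prod_const, Finset.card_univ, Fintype.card_fin]
    apply mul_le_mul_of_nonneg_left _ (by positivity)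
    rw [Finset.prod_ite]
    simp only [Finset.prod_const, one_pow, mul_one]
    rw [← pow_mul]
    apply pow_le_pow_of_le_one (by norm_num) (by norm_num)
    have : (univ.filter (fun i : Fin m => i ∈ H)) = H := by ext; simp
    rw [this]
    omega
  have hTcard : ((univ : Finset (Fin m → Fin 20 → Fin m)).card : ℝ) = ((m : ℝ) ^ 20) ^ m := by
    simp
  have hPcard : (P.card : ℝ) ≤ 4 ^ m := by
    have : P.card ≤ 4 ^ m := by
      refine (Finset.card_le_univ _).trans ?_
      rw [Fintype.card_prod, Fintype.card_finset, Fintype.card_fin, ← mul_pow]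
      norm_num
    exact_mod_cast this
  have h1 : ((univ : Finset (Fin m → Fin 20 → Fin m)).card : ℝ) ≤
      4 ^ m * (((m : ℝ) ^ 20) ^ m * (3 / 4) ^ (5 * m)) := by
    calc ((univ : Finset (Fin m → Fin 20 → Fin m)).card : ℝ) ≤ ((P.biUnion Bad).card : ℝ) := by
          exact_mod_cast Finset.card_le_card hcover
      _ ≤ ∑ HW ∈ P, ((Bad HW).card : ℝ) := by exact_mod_cast Finset.card_biUnion_le
      _ ≤ ∑ HW ∈ P, (((m : ℝ) ^ 20) ^ m * (3 / 4) ^ (5 * m)) := Finset.sum_le_sum hcardBad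
      _ = P.card * (((m : ℝ) ^ 20) ^ m * (3 / 4) ^ (5 * m)) := by
          rw [Finset.sum_const, nsmul_eq_mul]
      _ ≤ _ := mul_le_mul_of_nonneg_right hPcard (by positivity)
  rw [hTcard] at h1
  have hT0 : (0 : ℝ) < ((m : ℝ) ^ 20) ^ m := by positivity
  have h2 : (4 : ℝ) ^ m * (((m : ℝ) ^ 20) ^ m * (3 / 4) ^ (5 * m)) =
      ((m : ℝ) ^ 20) ^ m * (4 * (3 / 4) ^ 5) ^ m := by
    rw [mul_pow 4 ((3 / 4 : ℝ) ^ 5), ← pow_mul (3 / 4 : ℝ) 5 m]
    generalize ((m : ℝ) ^ 20) ^ m = a
    generalize (3 / 4 : ℝ) ^ (5 * m) = b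
    generalize (4 : ℝ) ^ m = c
    ring
  rw [h2] at h1
  have h3 : (4 * (3 / 4 : ℝ) ^ 5) ^ m < 1 := by
    apply pow_lt_one₀ (by norm_num) (by norm_num) (by omega)
  nlinarith

end H568R2
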