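import Mathlib
import Pool.Agent.H568R2.Defs
import Pool.Agent.H568R2.Switch

namespace H568R2

open Finset DomAC0

section Red

variable {m r n B σ : ℕ} {Λ : Type} [Fintype Λ] [DecidableEq Λ] [Nonempty Λ]

/-- The constraint satisfaction instance `X` with scopes `s` is satisfiable. -/
def Sat (s : Fin m → Fin r → Fin m) (X : Fin m × (Fin r → Fin n) → Bool) : Prop :=
  ∃ a : Fin m → Fin n, ∀ i, X (i, fun j => a (s i j)) = true

abbrev Vx (m r n B σ : ℕ) (Λ : Type) : Type :=
  (Fin m × (Fin r → Fin n)) ⊕ (Fin (B + 1) × Λ × ((Fin m → Fin σ) → Fin m))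

def Cons (s : Fin m → Fin r → Fin m) (hsh : Λ → Fin n → Fin σ) (l : Λ) (i : Fin m)
    (c : Fin r → Fin n) (y : Fin m → Fin σ) : Prop := ∀ j, y (s i j) = hsh l (c j)

def adjX (s : Fin m → Fin r → Fin m) (hsh : Λ → Fin n → Fin σ)
    (X : Fin m × (Fin r → Fin n) → Bool) : Vx m r n B σ Λ → Vx m r n B σ Λ → Prop
  | Sum.inl a, Sum.inl b => a ≠ b
  | Sum.inl a, Sum.inr u => X a = true ∧ ∃ y, Cons s hsh u.2.1 a.1 a.2 y ∧ u.2.2 y = a.1
  | Sum.inr u, Sum.inl a => X a = true ∧ ∃ y, Cons s hsh u.2.1 a.1 a.2 y ∧ u.2.2 y = a.1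
  | Sum.inr _, Sum.inr _ => False

def GX (B : ℕ) (s : Fin m → Fin r → Fin m) (hsh : Λ → Fin n → Fin σ)
    (X : Fin m × (Fin r → Fin n) → Bool) : SimpleGraph (Vx m r n B σ Λ) where
  Adj := adjX s hsh X
  symm := by
    constructor
    intro u v h
    cases u with
    | inl a => cases v with
      | inl b => exact fun h' => h h'.symm
      | inr w => exact h
    | inr u => cases v with
      | inl b => exact h
      | inr w => exact h
  loopless := by
    constructor
    intro u h
    cases u with
    | inl a => exact h rfl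
    | inr u => exact h

lemma yes_case (hm : 0 < m) (s : Fin m → Fin r → Fin m) (hsh : Λ → Fin n → Fin σ)
    (X : Fin m × (Fin r → Fin n) → Bool) (hX : Sat s X) : domNumber (GX B s hsh X) ≤ m := by
  classical
  obtain ⟨a, ha⟩ := hX
  set D : Finset (Vx m r n B σ Λ) :=
    univ.image (fun i : Fin m => Sum.inl (i, fun j => a (s i j))) with hD
  have hdom : IsDominating (GX B s hsh X) D := by
    intro v
    cases v with
    | inl b =>
      by_cases hb : (Sum.inl b : Vx m r n B σ Λ) ∈ D
      · left; exact hb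
      · right
        refine ⟨Sum.inl (⟨0, hm⟩, fun j => a (s ⟨0, hm⟩ j)), ?_, ?_⟩
        · rw [hD]; exact Finset.mem_image_of_mem _ (Finset.mem_univ _)
        · show (⟨0, hm⟩, fun j => a (s ⟨0, hm⟩ j)) ≠ b
          intro h
          apply hb
          rw [← h, hD]
          exact Finset.mem_image_of_mem _ (Finset.mem_univ _)
    | inr u =>
      right
      refine ⟨Sum.inl (u.2.2 (fun v => hsh u.2.1 (a v)),
        fun j => a (s (u.2.2 (fun v => hsh u.2.1 (a v))) j)), ?_, ?_⟩
      · rw [hD]; exact Finset.mem_image_of_mem _ (Finset.mem_univ _)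
      · show adjX s hsh X (Sum.inl _) (Sum.inr u)
        refine And.intro (ha _) (Exists.intro (fun v => hsh u.2.1 (a v)) (And.intro ?_ rfl))
        intro j
        rfl
  have h1 : domNumber (GX B s hsh X) ≤ D.card := Nat.sInf_le (Exists.intro D (And.intro rfl hdom))
  refine h1.trans ?_
  rw [hD]
  refine Finset.card_image_le.trans ?_
  simp

lemma no_case (s : Fin m → Fin (r + 1) → Fin m) (hs : ∀ i, s i 0 = i)
    (hsh : Λ → Fin n → Fin σ)
    (hcol : ∀ x y : Fin n, x ≠ y →
      (univ.filter (fun l : Λ => hsh l x = hsh l y)).card * B ^ m < Fintype.card Λ)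
    (X : Fin m × (Fin (r + 1) → Fin n) → Bool) (D : Finset (Vx m (r + 1) n B σ Λ))
    (hD : IsDominating (GX B s hsh X) D) (hDB : D.card ≤ B) : Sat s X := by
  classical
  -- a copy index `t` with no right vertex in `D`
  obtain ⟨t, ht⟩ : ∃ t : Fin (B + 1), ∀ u, (Sum.inr (t, u) : Vx m (r + 1) n B σ Λ) ∉ D := by
    by_contra hcon
    push Not at hcon
    choose u hu using hcon
    have : (univ.image (fun t : Fin (B + 1) => (Sum.inr (t, u t) : Vx m (r + 1) n B σ Λ))) ⊆ D := by
      intro v hv
      obtain ⟨t, _, rfl⟩ := Finset.mem_image.1 hv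
      exact hu t
    have h1 := Finset.card_le_card this
    rw [Finset.card_image_of_injective _ (by
      intro t t' h
      have := Sum.inr.inj h
      exact (Prod.mk.inj this).1)] at h1
    simp at h1
    omega
  -- local labelings
  have hloc : ∀ l : Λ, ∃ y : Fin m → Fin σ, ∀ i : Fin m, ∃ c : Fin (r + 1) → Fin n,
      (Sum.inl (i, c) : Vx m (r + 1) n B σ Λ) ∈ D ∧ X (i, c) = true ∧ Cons s hsh l i c y := by
    intro l
    by_contra hcon
    push Not at hcon
    choose z hz using hcon
    rcases hD (Sum.inr (t, l, z)) with h | ⟨v, hv, hadj⟩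
    · exact ht _ h
    · cases v with
      | inl a =>
        obtain ⟨hXa, y, hy, hzy⟩ := hadj
        obtain ⟨i, c⟩ := a
        simp only at hy hzy
        subst hzy
        exact hz y c hv hXa hy
      | inr u => exact hadj
  choose y hy using hloc
  choose lam hlamD hlamX hlamC using hy
  -- `lam l i` is a label
  set Dl : Fin m → Finset (Fin (r + 1) → Fin n) := fun i =>
    univ.filter (fun c => (Sum.inl (i, c) : Vx m (r + 1) n B σ Λ) ∈ D) with hDl
  have hDlcard : ∀ i, (Dl i).card ≤ B := by
    intro i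
    refine le_trans ?_ hDB
    rw [← Finset.card_image_of_injective (Dl i)
      (f := fun c => (Sum.inl (i, c) : Vx m (r + 1) n B σ Λ)) (by
        intro c c' h
        exact (Prod.mk.inj (Sum.inl.inj h)).2)]
    apply Finset.card_le_card
    intro v hv
    obtain ⟨c, hc, rfl⟩ := Finset.mem_image.1 hv
    exact (Finset.mem_filter.1 hc).2
  have hpi : ∀ l ∈ (univ : Finset Λ), lam l ∈ Fintype.piFinset Dl := by
    intro l _
    rw [Fintype.mem_piFinset]
    intro i
    rw [hDl]
    exact Finset.mem_filter.2 ⟨Finset.mem_univ _, hlamD l i⟩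
  have hpicard : (Fintype.piFinset Dl).card ≤ B ^ m := by
    rw [Fintype.card_piFinset]
    refine (Finset.prod_le_prod' (fun i _ => hDlcard i)).trans ?_
    simp
  have hmaps : ∑ μ ∈ Fintype.piFinset Dl, (univ.filter (fun l : Λ => lam l = μ)).card =
      Fintype.card Λ := by
    rw [← Finset.card_eq_sum_card_fiberwise (s := univ) (t := Fintype.piFinset Dl)
      (f := lam) hpi, Finset.card_univ]
  -- a popular labeling
  obtain ⟨μ, hμ1, hμ2⟩ : ∃ μ ∈ Fintype.piFinset Dl, Fintype.card Λ ≤
        (univ.filter (fun l : Λ => lam l = μ)).card * B ^ m := by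
    by_contra hcon
    push Not at hcon
    have hne : (Fintype.piFinset Dl).Nonempty := ⟨_, hpi (Classical.arbitrary Λ) (Finset.mem_univ _)⟩
    have h1 : ∑ μ ∈ Fintype.piFinset Dl, (univ.filter (fun l : Λ => lam l = μ)).card * B ^ m <
        ∑ μ ∈ Fintype.piFinset Dl, Fintype.card Λ :=
      Finset.sum_lt_sum_of_nonempty hne hcon
    rw [← Finset.sum_mul, hmaps, Finset.sum_const, smul_eq_mul] at h1
    have h2 : (Fintype.piFinset Dl).card * Fintype.card Λ ≤ B ^ m * Fintype.card Λ :=
      Nat.mul_le_mul_right _ hpicard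
    rw [mul_comm] at h1
    omega
  -- it is consistent
  have hcons : ∀ i j i' j', s i j = s i' j' → μ i j = μ i' j' := by
    intro i j i' j' hss
    by_contra hne
    have h1 := hcol _ _ hne
    have h2 : (univ.filter (fun l : Λ => lam l = μ)).card ≤
        (univ.filter (fun l : Λ => hsh l (μ i j) = hsh l (μ i' j'))).card := by
      apply Finset.card_le_card
      intro l hl
      rw [Finset.mem_filter] at hl ⊢
      refine ⟨Finset.mem_univ _, ?_⟩
      rw [← hl.2, ← hlamC l i j, ← hlamC l i' j', hss]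
    have h3 := Nat.mul_le_mul_right (B ^ m) h2
    omega
  have hfib : (univ.filter (fun l : Λ => lam l = μ)).Nonempty := by
    rw [← Finset.card_pos]
    have : 0 < Fintype.card Λ := Fintype.card_pos
    by_contra h0
    have h0' : (univ.filter (fun l : Λ => lam l = μ)).card = 0 := by omega
    rw [h0'] at hμ2
    omega
  obtain ⟨l0, hl0⟩ := hfib
  rw [Finset.mem_filter] at hl0
  refine ⟨fun v => μ v 0, fun i => ?_⟩
  have : (fun j => μ (s i j) 0) = μ i := by
    funext j
    exact hcons _ _ _ _ (hs _)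
  rw [this, ← hl0.2]
  exact hlamX l0 i

lemma no_case' (s : Fin m → Fin (r + 1) → Fin m) (hs : ∀ i, s i 0 = i)
    (hsh : Λ → Fin n → Fin σ)
    (hcol : ∀ x y : Fin n, x ≠ y →
      (univ.filter (fun l : Λ => hsh l x = hsh l y)).card * B ^ m < Fintype.card Λ)
    (X : Fin m × (Fin (r + 1) → Fin n) → Bool) (hX : ¬ Sat s X) :
    B < domNumber (GX B s hsh X) := by
  by_contra hcon
  apply hX
  have hne : {k | ∃ D : Finset (Vx m (r + 1) n B σ Λ), D.card = k ∧
      IsDominating (GX B s hsh X) D}.Nonempty := ⟨_, univ, rfl, fun v => Or.inl (Finset.mem_univ v)⟩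
  obtain ⟨D, hDc, hD⟩ := Nat.sInf_mem hne
  refine no_case s hs hsh hcol X D hD ?_
  have : D.card = domNumber (GX B s hsh X) := hDc
  omega

omit [Fintype Λ] [DecidableEq Λ] [Nonempty Λ] in
lemma adj_junta (s : Fin m → Fin r → Fin m) (hsh : Λ → Fin n → Fin σ)
    (u v : Vx m r n B σ Λ) : Junta 1 (fun X : Fin m × (Fin r → Fin n) → Bool =>
      @decide ((GX B s hsh X).Adj u v) (Classical.propDecidable _)) := by
  cases u with
  | inl a =>
    cases v with
    | inl b =>
      refine ⟨∅, by simp, fun X Y _ => ?_⟩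
      rfl
    | inr w =>
      refine ⟨{a}, by simp, fun X Y h => ?_⟩
      have ha := h a (by simp)
      have : (GX B s hsh X).Adj (Sum.inl a) (Sum.inr w) ↔
          (GX B s hsh Y).Adj (Sum.inl a) (Sum.inr w) := by
        show (X a = true ∧ _) ↔ (Y a = true ∧ _)
        rw [ha]
      exact decide_eq_decide.2 this
  | inr w =>
    cases v with
    | inl a =>
      refine ⟨{a}, by simp, fun X Y h => ?_⟩
      have ha := h a (by simp)
      have : (GX B s hsh X).Adj (Sum.inr w) (Sum.inl a) ↔
          (GX B s hsh Y).Adj (Sum.inr w) (Sum.inl a) := by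
        show (X a = true ∧ _) ↔ (Y a = true ∧ _)
        rw [ha]
      exact decide_eq_decide.2 this
    | inr b =>
      refine ⟨∅, by simp, fun X Y _ => ?_⟩
      rfl

end Red

section Transport

lemma domNumber_comap {V W : Type} [Fintype V] [Fintype W] (e : V ≃ W) (G : SimpleGraph V) :
    domNumber (G.comap e.symm) = domNumber G := by
  classical
  unfold domNumber
  congr 1
  ext k
  constructor
  · rintro ⟨D, hD, hdom⟩
    refine ⟨D.map e.symm.toEmbedding, by rw [Finset.card_map, hD], ?_⟩
    intro v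
    rcases hdom (e v) with h | ⟨u, hu, hadj⟩
    · left
      rw [Finset.mem_map]
      exact ⟨e v, h, by simp⟩
    · right
      refine ⟨e.symm u, ?_, ?_⟩
      · rw [Finset.mem_map]; exact ⟨u, hu, rfl⟩
      · have : G.Adj (e.symm u) (e.symm (e v)) := hadj
        simpa using this
  · rintro ⟨D, hD, hdom⟩
    refine ⟨D.map e.toEmbedding, by rw [Finset.card_map, hD], ?_⟩
    intro v
    rcases hdom (e.symm v) with h | ⟨u, hu, hadj⟩
    · left
      rw [Finset.mem_map]
      exact ⟨e.symm v, h, by simp⟩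
    · right
      refine ⟨e u, ?_, ?_⟩
      · rw [Finset.mem_map]; exact ⟨u, hu, rfl⟩
      · show G.Adj (e.symm (e u)) (e.symm v)
        simpa using hadj

end Transport

end H568R2
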