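import Mathlib
import Pool.Agent.H568R2.Medium
import Pool.Agent.H568R2.Reduction
import Pool.Agent.H568R2.Expander

namespace H568R2

open Finset DomAC0

section Cnt
variable {m n r : ℕ}

/-- the variable of constraint `i` queried by the assignment `a` -/
def vr (s : Fin m → Fin r → Fin m) (a : Fin m → Fin n) (i : Fin m) :
    Fin m × (Fin r → Fin n) := (i, fun j => a (s i j))

lemma vr_inj (s : Fin m → Fin r → Fin m) (a : Fin m → Fin n) : Function.Injective (vr s a) := by
  intro i i' h
  exact (Prod.mk.inj h).1

lemma count_le (s : Fin m → Fin r → Fin m) (H : Finset (Fin m))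
    (A : Finset (Fin m × (Fin r → Fin n))) :
    (univ.filter (fun a : Fin m → Fin n => ∀ j ∈ H, vr s a j ∈ A)).card ≤
      A.card ^ H.card * n ^ (m - (touched s H).card) := by
  classical
  set Φ : (Fin m → Fin n) → ({j // j ∈ H} → Fin m × (Fin r → Fin n)) ×
      ({v // v ∉ touched s H} → Fin n) := fun a => (fun j => vr s a j.1, fun v => a v.1) with hΦ
  have hinj : Function.Injective Φ := by
    intro a b h
    rw [hΦ] at h
    simp only [Prod.mk.injEq] at h
    obtain ⟨h1, h2⟩ := h
    funext v
    by_cases hv : v ∈ touched s H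
    · unfold touched at hv
      obtain ⟨i, hi, hvi⟩ := Finset.mem_biUnion.1 hv
      obtain ⟨j, _, rfl⟩ := Finset.mem_image.1 hvi
      have h3 := congrFun h1 ⟨i, hi⟩
      have h4 := congrFun (Prod.mk.inj h3).2 j
      exact h4
    · exact congrFun h2 ⟨v, hv⟩
  rw [← Finset.card_image_of_injective _ hinj]
  have hsub : (univ.filter (fun a : Fin m → Fin n => ∀ j ∈ H, vr s a j ∈ A)).image Φ ⊆
      (Fintype.piFinset (fun _ : {j // j ∈ H} => A)) ×ˢ
        (univ : Finset ({v // v ∉ touched s H} → Fin n)) := by
    intro w hw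
    obtain ⟨a, ha, rfl⟩ := Finset.mem_image.1 hw
    rw [Finset.mem_product]
    refine ⟨?_, Finset.mem_univ _⟩
    rw [Fintype.mem_piFinset]
    intro j
    exact (Finset.mem_filter.1 ha).2 j.1 j.2
  refine (Finset.card_le_card hsub).trans ?_
  rw [Finset.card_product, Fintype.card_piFinset, Finset.prod_const, Finset.card_univ,
    Finset.card_univ, Fintype.card_coe, Fintype.card_fun, Fintype.card_fin]
  have : Fintype.card {v // v ∉ touched s H} = m - (touched s H).card := by
    rw [Fintype.card_subtype_compl, Fintype.card_fin, Fintype.card_coe]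
  rw [this]

/-- The planted instance has a unique solution. -/
def Uniq (s : Fin m → Fin r → Fin m) (a : Fin m → Fin n)
    (X : Fin m × (Fin r → Fin n) → Bool) : Prop :=
  (∀ i, X (vr s a i) = false) ∧ ∀ b : Fin m → Fin n, b ≠ a →
    ∃ i, plant (vr s a) univ X (vr s b i) = false

lemma uniq_sat {s : Fin m → Fin r → Fin m} {a : Fin m → Fin n}
    {X : Fin m × (Fin r → Fin n) → Bool} (hU : Uniq s a X) (h : Finset (Fin m)) :
    Sat s (plant (vr s a) h X) ↔ h = univ := by
  constructor
  · rintro ⟨b, hb⟩
    by_contra hne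
    obtain ⟨i0, hi0⟩ : ∃ i0, i0 ∉ h := by
      by_contra hcon
      push Not at hcon
      exact hne (Finset.eq_univ_of_forall hcon)
    by_cases hba : b = a
    · subst hba
      have h1 := hb i0
      change plant (vr s b) h X (vr s b i0) = true at h1
      unfold plant at h1
      rw [hU.1 i0] at h1
      simp only [Bool.or_false, decide_eq_true_eq] at h1
      obtain ⟨j, hj, hji⟩ := h1
      have := vr_inj s b hji
      subst this
      exact hi0 hj
    · obtain ⟨i, hi⟩ := hU.2 b hba
      have h1 := hb i
      change plant (vr s a) h X (vr s b i) = true at h1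
      unfold plant at h1 hi
      rw [Bool.or_eq_false_iff] at hi
      rw [hi.2] at h1
      simp only [Bool.or_false, decide_eq_true_eq] at h1
      obtain ⟨j, _, hji⟩ := h1
      have h2 := hi.1
      rw [decide_eq_false_iff_not] at h2
      exact h2 ⟨j, Finset.mem_univ _, hji⟩
  · rintro rfl
    refine ⟨a, fun i => ?_⟩
    change plant (vr s a) univ X (vr s a i) = true
    unfold plant
    have : (∃ j ∈ (univ : Finset (Fin m)), vr s a j = vr s a i) := ⟨i, Finset.mem_univ _, rfl⟩
    simp

lemma uniq_sens {J : Type} {s : Fin m → Fin r → Fin m} {a : Fin m → Fin n}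
    {X : Fin m × (Fin r → Fin n) → Bool} (hU : Uniq s a X)
    (f : (Fin m × (Fin r → Fin n) → Bool) → Bool) (hf : ∀ X, f X = true ↔ Sat s X) :
    sens f (vr s a) X = univ := by
  rw [Finset.eq_univ_iff_forall]
  intro j
  rw [mem_sens]
  refine ⟨univ.erase j, ?_⟩
  rw [Finset.insert_erase (Finset.mem_univ j)]
  have h1 : f (plant (vr s a) univ X) = true := by
    rw [hf, uniq_sat hU]
  have h2 : ¬ f (plant (vr s a) (univ.erase j) X) = true := by
    rw [hf, uniq_sat hU]
    intro h
    have := Finset.mem_univ j
    rw [← h] at this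
    simp at this
  rw [h1]
  exact h2

lemma plant_true {I M : Type*} [DecidableEq I] {v : M → I} {h : Finset M} {X : I → Bool} {i : I} :
    plant v h X i = true ↔ (∃ j ∈ h, v j = i) ∨ X i = true := by
  unfold plant
  rw [Bool.or_eq_true, decide_eq_true_eq]

open Classical in
lemma uniq_prob {s : Fin m → Fin (r + 1) → Fin m} (hs : ∀ i, s i 0 = i) (a : Fin m → Fin n)
    {p : ℝ} (hp0 : 0 ≤ p) (hp1 : p ≤ 1) :
    Ex (vp p) (fun X : Fin m × (Fin (r + 1) → Fin n) → Bool =>
      if ¬ Uniq s a X then (1 : ℝ) else 0) ≤ m * p + ((1 + n * p) ^ m - 1) := by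
  have hone : ∀ Z : Finset (Fin m × (Fin (r + 1) → Fin n)),
      Ex (vp p) (fun X : Fin m × (Fin (r + 1) → Fin n) → Bool =>
        (if ∀ i ∈ Z, X i = true then (1 : ℝ) else 0)) = p ^ Z.card := by
    intro Z
    have h := Ex_indep (vp_sum p) (fun b : Bool => b = true) Z
      (fun _ : Fin m × (Fin (r + 1) → Fin n) → Bool => (1 : ℝ)) (by intros; rfl)
    rw [Ex_const (vp_sum p)] at h
    simp only [one_mul, mul_one] at h
    have h2 : (∑ a ∈ univ.filter (fun b : Bool => b = true), vp p a) = p := by
      rw [Finset.sum_filter, Fintype.sum_bool]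
      simp [vp]
    rw [h2] at h
    rw [← h]
  have hpt : ∀ X : Fin m × (Fin (r + 1) → Fin n) → Bool, (if ¬ Uniq s a X then (1 : ℝ) else 0) ≤
      (∑ i : Fin m, if ∀ v ∈ ({vr s a i} : Finset _), X v = true then (1 : ℝ) else 0) +
      ∑ b ∈ univ.erase a, (if ∀ v ∈ (univ.filter (fun v => b v ≠ a v)).image (vr s b),
        X v = true then (1 : ℝ) else 0) := by
    intro X
    have hn1 : ∀ i ∈ (univ : Finset (Fin m)),
        (0 : ℝ) ≤ (if ∀ v ∈ ({vr s a i} : Finset _), X v = true then (1 : ℝ) else 0) := by
      intro i _; split_ifs <;> norm_num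
    have hn2 : ∀ b ∈ univ.erase a,
        (0 : ℝ) ≤ (if ∀ v ∈ (univ.filter (fun v => b v ≠ a v)).image (vr s b),
        X v = true then (1 : ℝ) else 0) := by
      intro i _; split_ifs <;> norm_num
    by_cases hU : Uniq s a X
    · simp only [hU, not_true, if_false]
      exact add_nonneg (Finset.sum_nonneg hn1) (Finset.sum_nonneg hn2)
    · simp only [hU, not_false_iff, if_true]
      unfold Uniq at hU
      rw [not_and_or] at hU
      rcases hU with hU | hU
      · push Not at hU
        obtain ⟨i, hi⟩ := hU
        have hi' : X (vr s a i) = true := by simpa using hi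
        have h1 := Finset.single_le_sum hn1 (Finset.mem_univ i)
        rw [if_pos (by intro v hv; rw [Finset.mem_singleton] at hv; rw [hv]; exact hi')] at h1
        have h2 := Finset.sum_nonneg hn2
        linarith
      · push Not at hU
        obtain ⟨b, hba, hb⟩ := hU
        have h1 := Finset.single_le_sum hn2 (Finset.mem_erase.2 ⟨hba, Finset.mem_univ b⟩)
        rw [if_pos (by
          intro v hv
          obtain ⟨i, hi, rfl⟩ := Finset.mem_image.1 hv
          have hbi : b i ≠ a i := (Finset.mem_filter.1 hi).2
          have h3 : plant (vr s a) univ X (vr s b i) = true := by simpa using hb i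
          rcases plant_true.1 h3 with ⟨j, _, hj⟩ | h3
          · exfalso
            have hji : j = i := (Prod.mk.inj hj).1
            subst hji
            have h4 := congrFun (Prod.mk.inj hj).2 0
            simp only [hs] at h4
            exact hbi h4.symm
          · exact h3)] at h1
        have h2 := Finset.sum_nonneg hn1
        linarith
  refine (Ex_mono (vp_nonneg hp0 hp1) hpt).trans ?_
  rw [Ex_add, Ex_sum, Ex_sum]
  apply add_le_add
  · simp only [hone, Finset.card_singleton, pow_one, Finset.sum_const, Finset.card_univ,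
      Fintype.card_fin, nsmul_eq_mul, le_refl]
  · have h1 : ∀ b ∈ univ.erase a, Ex (vp p) (fun X : Fin m × (Fin (r + 1) → Fin n) → Bool =>
        (if ∀ v ∈ (univ.filter (fun v => b v ≠ a v)).image (vr s b),
        X v = true then (1 : ℝ) else 0)) = ∏ v : Fin m, (if b v = a v then 1 else p) := by
      intro b _
      rw [hone, Finset.card_image_of_injective _ (vr_inj s b), Finset.prod_ite]
      simp
    rw [Finset.sum_congr rfl h1]
    have h2 : ∑ b : Fin m → Fin n, ∏ v : Fin m, (if b v = a v then 1 else p) =
        (∏ v : Fin m, ∑ x : Fin n, (if x = a v then 1 else p)) := by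
      rw [Finset.prod_univ_sum, Fintype.piFinset_univ]
    have h3 : ∀ v : Fin m, ∑ x : Fin n, (if x = a v then 1 else p) ≤ 1 + n * p := by
      intro v
      have : ∀ x : Fin n, (if x = a v then 1 else p) ≤ (if x = a v then 1 else 0) + p := by
        intro x; split_ifs <;> linarith
      refine (Finset.sum_le_sum fun x _ => this x).trans ?_
      rw [Finset.sum_add_distrib]
      simp
    have h4 : ∑ b : Fin m → Fin n, ∏ v : Fin m, (if b v = a v then 1 else p) ≤
        (1 + n * p) ^ m := by
      rw [h2]
      refine (Finset.prod_le_prod (fun v _ => Finset.sum_nonneg fun x _ => ?_)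
        (fun v _ => h3 v)).trans ?_
      · split_ifs <;> linarith
      · simp
    rw [← Finset.add_sum_erase univ _ (Finset.mem_univ a)] at h4
    simp only [if_true, Finset.prod_const_one] at h4
    linarith

end Cnt

end H568R2
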