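import Mathlib

namespace H568R2

lemma final_arith (m' d' K k c2 τ M : ℕ) (T : ℝ) (hT : T = (τ : ℝ) ^ d') (hd : 1 ≤ d')
    (hm' : 1 ≤ m') (hM : (M : ℝ) ≤ c2 * T ^ (336 * m')) (hk : k = d' * (5672 * m') + 1)
    (hτ : 2 * (c2 * 2 ^ (1000 * m') * K ^ (1000 * m') +
      c2 ^ 2 * 2 ^ (1000 * m') * d' * (4 ^ K * 3) ^ k) < τ)
    (hmain : T ^ (8 * (1000 * m')) * (1 / 2 : ℝ) ≤ (M : ℝ) * 2 ^ (1000 * m') *
      (T ^ (5 * (1000 * m')) * ((K : ℝ) ^ (1000 * m') * T ^ (2 * (1000 * m')) +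
        T ^ (8 * (1000 * m')) * (d' * (M : ℝ) * (4 ^ K * (3 * (1 / (τ : ℝ)))) ^ k)))) : False := by
  have hτpos : 0 < τ := by omega
  have hτ1 : (1 : ℝ) ≤ τ := by exact_mod_cast hτpos
  have hτ0 : (0 : ℝ) < τ := by linarith
  have hT1 : 1 ≤ T := by rw [hT]; exact one_le_pow₀ hτ1
  have hT0 : 0 < T := by linarith
  have hTτ : (τ : ℝ) ≤ T := by
    rw [hT]
    calc (τ : ℝ) = (τ : ℝ) ^ 1 := (pow_one _).symm
      _ ≤ (τ : ℝ) ^ d' := pow_le_pow_right₀ hτ1 hd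
  have hτR : 2 * ((c2 : ℝ) * 2 ^ (1000 * m') * (K : ℝ) ^ (1000 * m') +
      (c2 : ℝ) ^ 2 * 2 ^ (1000 * m') * d' * (4 ^ K * 3) ^ k) < τ := by
    exact_mod_cast hτ
  -- first term
  have e1 : T ^ (7336 * m') * τ ≤ T ^ (8000 * m') := by
    calc T ^ (7336 * m') * τ ≤ T ^ (7336 * m') * T ^ (664 * m') := by
          apply mul_le_mul_of_nonneg_left _ (by positivity)
          refine hTτ.trans ?_
          calc T = T ^ 1 := (pow_one _).symm
            _ ≤ T ^ (664 * m') := pow_le_pow_right₀ hT1 (by omega)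
      _ = T ^ (8000 * m') := by rw [← pow_add]; congr 1; ring
  have e2 : T ^ (13672 * m') * τ = T ^ (8000 * m') * (τ : ℝ) ^ k := by
    have : T ^ (13672 * m') = T ^ (8000 * m') * (τ : ℝ) ^ (d' * (5672 * m')) := by
      rw [show 13672 * m' = 8000 * m' + 5672 * m' by ring, pow_add]
      congr 1
      rw [hT, ← pow_mul]
    rw [this, hk, pow_succ]; ring
  have hτk : (0 : ℝ) < (τ : ℝ) ^ k := by positivity
  have hpw : (4 ^ K * (3 * (1 / (τ : ℝ)))) ^ k = (4 ^ K * 3) ^ k / (τ : ℝ) ^ k := by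
    rw [← div_pow]
    congr 1
    ring
  rw [hpw] at hmain
  have hM0 : (0 : ℝ) ≤ M := by positivity
  -- bound the right side
  have b1 : (M : ℝ) * 2 ^ (1000 * m') * (T ^ (5 * (1000 * m')) * ((K : ℝ) ^ (1000 * m') *
      T ^ (2 * (1000 * m')))) * τ ≤
      (c2 * 2 ^ (1000 * m') * (K : ℝ) ^ (1000 * m')) * T ^ (8000 * m') := by
    calc (M : ℝ) * 2 ^ (1000 * m') * (T ^ (5 * (1000 * m')) * ((K : ℝ) ^ (1000 * m') *
          T ^ (2 * (1000 * m')))) * τ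
        ≤ (c2 * T ^ (336 * m')) * 2 ^ (1000 * m') * (T ^ (5 * (1000 * m')) *
          ((K : ℝ) ^ (1000 * m') * T ^ (2 * (1000 * m')))) * τ := by gcongr
      _ = (c2 * 2 ^ (1000 * m') * (K : ℝ) ^ (1000 * m')) * (T ^ (7336 * m') * τ) := by
          rw [show 7336 * m' = 336 * m' + (5 * (1000 * m') + 2 * (1000 * m')) by ring,
            pow_add T (336 * m'), pow_add T (5 * (1000 * m'))]
          ring
      _ ≤ _ := mul_le_mul_of_nonneg_left e1 (by positivity)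
  have b2 : (M : ℝ) * 2 ^ (1000 * m') * (T ^ (5 * (1000 * m')) * (T ^ (8 * (1000 * m')) *
      (d' * (M : ℝ) * ((4 ^ K * 3) ^ k / (τ : ℝ) ^ k)))) * τ ≤
      (c2 ^ 2 * 2 ^ (1000 * m') * d' * (4 ^ K * 3) ^ k) * T ^ (8000 * m') := by
    calc (M : ℝ) * 2 ^ (1000 * m') * (T ^ (5 * (1000 * m')) * (T ^ (8 * (1000 * m')) *
          (d' * (M : ℝ) * ((4 ^ K * 3) ^ k / (τ : ℝ) ^ k)))) * τ
        ≤ (c2 * T ^ (336 * m')) * 2 ^ (1000 * m') * (T ^ (5 * (1000 * m')) *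
          (T ^ (8 * (1000 * m')) * (d' * (c2 * T ^ (336 * m')) *
          ((4 ^ K * 3) ^ k / (τ : ℝ) ^ k)))) * τ := by gcongr
      _ = (c2 ^ 2 * 2 ^ (1000 * m') * d' * (4 ^ K * 3) ^ k) *
          ((T ^ (13672 * m') * τ) / (τ : ℝ) ^ k) := by
          rw [show 13672 * m' = 336 * m' + (336 * m' + (5 * (1000 * m') + 8 * (1000 * m'))) by
            ring, pow_add T (336 * m'), pow_add T (336 * m'), pow_add T (5 * (1000 * m'))]
          ring
      _ = _ := by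
          rw [e2, mul_div_assoc, div_self hτk.ne', mul_one]
  have hX0 : 0 < T ^ (8000 * m') := by positivity
  have hm2 := mul_le_mul_of_nonneg_right hmain hτ0.le
  have hsplit : (M : ℝ) * 2 ^ (1000 * m') *
      (T ^ (5 * (1000 * m')) * ((K : ℝ) ^ (1000 * m') * T ^ (2 * (1000 * m')) +
        T ^ (8 * (1000 * m')) * (d' * (M : ℝ) * ((4 ^ K * 3) ^ k / (τ : ℝ) ^ k)))) * τ =
      (M : ℝ) * 2 ^ (1000 * m') * (T ^ (5 * (1000 * m')) * ((K : ℝ) ^ (1000 * m') *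
        T ^ (2 * (1000 * m')))) * τ + (M : ℝ) * 2 ^ (1000 * m') * (T ^ (5 * (1000 * m')) *
        (T ^ (8 * (1000 * m')) * (d' * (M : ℝ) * ((4 ^ K * 3) ^ k / (τ : ℝ) ^ k)))) * τ := by
    ring
  rw [hsplit] at hm2
  rw [show 8 * (1000 * m') = 8000 * m' by ring] at hm2 b2
  have h3 : T ^ (8000 * m') * (1 / 2) * τ ≤ ((c2 * 2 ^ (1000 * m') * (K : ℝ) ^ (1000 * m')) +
      (c2 ^ 2 * 2 ^ (1000 * m') * d' * (4 ^ K * 3) ^ k)) * T ^ (8000 * m') := by
    linarith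
  have h4 : T ^ (8000 * m') * ((1 / 2) * τ) ≤ T ^ (8000 * m') *
      ((c2 * 2 ^ (1000 * m') * (K : ℝ) ^ (1000 * m')) +
      (c2 ^ 2 * 2 ^ (1000 * m') * d' * (4 ^ K * 3) ^ k)) := by
    linarith
  have h5 := le_of_mul_le_mul_left h4 hX0
  linarith

/-- the probability of a bad planted instance is small -/
lemma bad_small (m : ℕ) (T : ℝ) (hT : 8 * (m : ℝ) ≤ T) (hm : 1 ≤ m) (n : ℝ) (hn : n = T ^ 8) :
    m * ((1 / T ^ 9) / 2) + ((1 + n * ((1 / T ^ 9) / 2)) ^ m - 1) ≤ 1 / 2 := by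
  have hm1 : (1 : ℝ) ≤ m := by exact_mod_cast hm
  have hT0 : 0 < T := by linarith
  have hT1 : 1 ≤ T := by linarith
  have hnp : n * ((1 / T ^ 9) / 2) = 1 / (2 * T) := by
    rw [hn]; field_simp
  rw [hnp]
  have hmT : (m : ℝ) * (1 / (2 * T)) ≤ 1 / 16 := by
    rw [mul_one_div, div_le_div_iff₀ (by positivity) (by norm_num)]
    linarith
  have h1 : (m : ℝ) * ((1 / T ^ 9) / 2) ≤ 1 / 16 := by
    refine le_trans ?_ hmT
    apply mul_le_mul_of_nonneg_left _ (by positivity)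
    rw [div_div]
    apply one_div_le_one_div_of_le (by positivity)
    have : T ≤ T ^ 9 := by
      calc T = T ^ 1 := (pow_one _).symm
        _ ≤ T ^ 9 := pow_le_pow_right₀ hT1 (by norm_num)
    linarith
  have h2 : (1 + 1 / (2 * T)) ^ m ≤ 16 / 15 := by
    have e1 : (1 + 1 / (2 * T)) ^ m ≤ Real.exp (m * (1 / (2 * T))) := by
      rw [Real.exp_nat_mul]
      apply pow_le_pow_left₀ (by positivity)
      have := Real.add_one_le_exp (1 / (2 * T))
      linarith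
    have e2 : Real.exp (m * (1 / (2 * T))) ≤ Real.exp (1 / 16) := Real.exp_le_exp.2 hmT
    have e3 : Real.exp (1 / 16) ≤ 16 / 15 := by
      have h3 := Real.add_one_le_exp (-(1 / 16 : ℝ))
      rw [Real.exp_neg] at h3
      have h4 : 0 < Real.exp (1 / 16) := Real.exp_pos _
      have h5 : (15 / 16 : ℝ) ≤ (Real.exp (1 / 16))⁻¹ := by linarith
      rw [le_inv_comm₀ (by norm_num) h4] at h5
      norm_num at h5 ⊢
      exact h5
    linarith
  linarith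

end H568R2
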