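import Mathlib
import Pool.Agent.H568R2.Count

namespace H568R2

open Finset DomAC0

section Asm
variable {m n r : ℕ} {J : Type} [Fintype J]

lemma mask_junta {I : Type*} [DecidableEq I] {f : (I → Bool) → Bool} {K : ℕ} (hf : Junta K f)
    (Y : I → Bool) : Junta K (fun x => f (mask Y x)) := by
  obtain ⟨A, hA, h⟩ := hf
  refine ⟨A, hA, fun x z hxz => ?_⟩
  apply h
  intro i hi
  unfold mask
  rw [hxz i hi]

/-- the error term of the collapse -/
noncomputable def epsC (C : Circuit J) (k d τ : ℕ) : ℝ :=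
  d * ((C.size * (Fintype.card J + C.size + 1) : ℕ) : ℝ) *
          (4 ^ (KK k d) * (3 * (1 / (τ : ℝ)))) ^ k

open Classical in
theorem bound3 (s : Fin m → Fin r → Fin m)
    (hexp : ∀ H : Finset (Fin m), m ≤ 4 * H.card → 3 * m ≤ 4 * (touched s H).card)
    (C : Circuit J) (σ : ((Fin m × (Fin r → Fin n)) → Bool) → (J → Bool))
    (hσ : ∀ j, Junta 1 (fun x => σ x j)) {k : ℕ} (hk : 1 ≤ k) {d τ : ℕ} (hτ : 3 ≤ τ)
    (hn : n = ((τ ^ d) ^ 8))
    (g : Fin C.size) (hg : C.gateDepth g ≤ d) (i : ℕ) (H : Finset (Fin m))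
    (hH1 : m ≤ 4 * H.card) (hH2 : 4 * H.card < 2 * m)
    (T y q ε : ℝ) (hT : T = (τ : ℝ) ^ d) (hy : y = 1 / T ^ 9) (hq : q = (1 / (τ : ℝ)) ^ d)
    (hε : ε = epsC C k d τ)
    (f : ((Fin m × (Fin r → Fin n)) → Bool) → Bool)
    (hf : f = fun x => gfun C g (σ x) ((pl C g).take i)) :
    ∑ a : Fin m → Fin n, Ex (vp (y / 2)) (fun X =>
      if sens f (vr s a) X = H then (1 : ℝ) else 0) ≤
    T ^ (5 * m) * ((KK k d : ℝ) ^ m * T ^ (2 * m) + T ^ (8 * m) * ε) := by
  have hτ1 : (1 : ℝ) ≤ τ := by exact_mod_cast (by omega : 1 ≤ τ)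
  have hτ0 : (0 : ℝ) < τ := by linarith
  have hT1 : 1 ≤ T := by rw [hT]; exact one_le_pow₀ hτ1
  have hT0 : 0 < T := by linarith
  have hy0 : 0 ≤ y := by rw [hy]; positivity
  have hy1 : y ≤ 1 := by
    rw [hy, div_le_one (by positivity)]
    exact one_le_pow₀ hT1
  have hq0 : 0 ≤ q := by rw [hq]; positivity
  have hqT : q = 1 / T := by rw [hq, hT, one_div_pow]
  have hq1 : q ≤ 1 := by
    rw [hqT, div_le_one hT0]; exact hT1
  have h13 : (1 : ℝ) / τ ≤ 1 / 3 := by
    apply one_div_le_one_div_of_le (by norm_num)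
    exact_mod_cast hτ
  have hyq : y * q = 1 / T ^ 10 := by
    rw [hqT, hy]; field_simp
  have hK1 : 1 ≤ KK k d := KK_mono k hk (Nat.zero_le d)
  -- counting for each `(Y, ρ)`
  have hcount : ∀ (Y : (Fin m × (Fin r → Fin n)) → Bool) (ρ : Restr (Fin m × (Fin r → Fin n))),
      ∑ a : Fin m → Fin n, (if Cov f (vr s a) H Y ρ then (1 : ℝ) else 0) ≤
      (KK k d : ℝ) ^ m * T ^ (2 * m) + T ^ (8 * m) *
        (if ¬ Good C (fun x => σ (mask Y x)) k d ρ then (1 : ℝ) else 0) := by
    intro Y ρ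
    by_cases hG : Good C (fun x => σ (mask Y x)) k d ρ
    · obtain ⟨A, hA, hdep⟩ := hG g hg i
      have hdep : DepOn (rs (fun x => f (mask Y x)) ρ) A := by rw [hf]; exact hdep
      have h1 : ∑ a : Fin m → Fin n, (if Cov f (vr s a) H Y ρ then (1 : ℝ) else 0) ≤
          ∑ a : Fin m → Fin n, (if ∀ j ∈ H, vr s a j ∈ A then (1 : ℝ) else 0) := by
        apply Finset.sum_le_sum
        intro a _
        by_cases h : Cov f (vr s a) H Y ρ
        · rw [if_pos h, if_pos (h A hdep)]
        · rw [if_neg h]; split_ifs <;> norm_num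
      refine h1.trans ?_
      rw [Finset.sum_boole]
      simp only [hG, not_true, if_false, mul_zero, add_zero]
      have h2 := count_le (n := n) s H A
      have h3 : A.card ^ H.card * n ^ (m - (touched s H).card) ≤
          (KK k d) ^ m * ((τ ^ d) ^ (2 * m)) := by
        apply Nat.mul_le_mul
        · calc A.card ^ H.card ≤ (KK k d) ^ H.card := Nat.pow_le_pow_left hA _
            _ ≤ (KK k d) ^ m := Nat.pow_le_pow_right hK1 (by omega)
        · rw [hn, ← pow_mul]
          apply Nat.pow_le_pow_right (Nat.pos_of_ne_zero (by positivity))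
          have := hexp H hH1
          omega
      have h4 := h2.trans h3
      have h5 : ((univ.filter (fun a : Fin m → Fin n => ∀ j ∈ H, vr s a j ∈ A)).card : ℝ) ≤
        (((KK k d) ^ m * ((τ ^ d) ^ (2 * m)) : ℕ) : ℝ) := by
        refine le_trans ?_ (Nat.cast_le.2 h4)
        apply le_of_eq
        congr 1
      push_cast at h5
      rw [← hT] at h5
      exact h5
    · simp only [hG, not_false_iff, if_true, mul_one]
      have h1 : ∑ a : Fin m → Fin n, (if Cov f (vr s a) H Y ρ then (1 : ℝ) else 0) ≤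
          ∑ a : Fin m → Fin n, (1 : ℝ) := by
        apply Finset.sum_le_sum
        intro a _
        split_ifs <;> norm_num
      refine h1.trans ?_
      have h2 : ∑ a : Fin m → Fin n, (1 : ℝ) = T ^ (8 * m) := by
        simp only [Finset.sum_const, Finset.card_univ, Fintype.card_fun, Fintype.card_fin,
          nsmul_eq_mul, mul_one, hn, hT]
        push_cast
        rw [← pow_mul]
      rw [h2]
      have : 0 ≤ (KK k d : ℝ) ^ m * T ^ (2 * m) := by positivity
      linarith
  -- sum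
  have hmain : (y * q) ^ H.card * ∑ a : Fin m → Fin n, Ex (vp (y / 2)) (fun X =>
      if sens f (vr s a) X = H then (1 : ℝ) else 0) ≤
      (KK k d : ℝ) ^ m * T ^ (2 * m) + T ^ (8 * m) * ε := by
    rw [Finset.mul_sum]
    refine (Finset.sum_le_sum fun a _ =>
      sens_prob f (vr s a) (vr_inj s a) H hy0 hy1 hq0 hq1).trans ?_
    rw [← Ex_sum]
    have h1 : ∀ Y : (Fin m × (Fin r → Fin n)) → Bool,
        ∑ a : Fin m → Fin n, Ex (wq q) (fun ρ : Restr (Fin m × (Fin r → Fin n)) =>
          if Cov f (vr s a) H Y ρ then (1 : ℝ) else 0) ≤ (KK k d : ℝ) ^ m * T ^ (2 * m) + T ^ (8 * m) * ε := by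
      intro Y
      rw [← Ex_sum]
      refine (Ex_mono (wq_nonneg hq0 hq1) (fun ρ => hcount Y ρ)).trans ?_
      rw [Ex_add, Ex_smul (wq q) (T ^ (8 * m))]
      have h2 := collapse C (fun x => σ (mask Y x)) (fun j => mask_junta (hσ j) Y)
        (q := 1 / (τ : ℝ)) (by positivity) h13 hk d d (le_refl d)
      rw [← hq] at h2
      have h2' : Ex (wq q) (fun ρ : Restr (Fin m × (Fin r → Fin n)) =>
          if ¬ Good C (fun x => σ (mask Y x)) k d ρ then (1 : ℝ) else 0) ≤ ε := by
        rw [hε]; exact h2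
      have h3 : 0 ≤ T ^ (8 * m) := by positivity
      have h4 := mul_le_mul_of_nonneg_left h2' h3
      have h5 := Ex_const (I := Fin m × (Fin r → Fin n)) (wq_sum q)
        ((KK k d : ℝ) ^ m * T ^ (2 * m))
      exact add_le_add h5.le h4
    refine (Ex_mono (vp_nonneg hy0 hy1) h1).trans ?_
    exact (Ex_const (I := Fin m × (Fin r → Fin n)) (vp_sum y) _).le
  have hS0 : 0 ≤ ∑ a : Fin m → Fin n, Ex (vp (y / 2)) (fun X =>
      if sens f (vr s a) X = H then (1 : ℝ) else 0) := by
    apply Finset.sum_nonneg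
    intro a _
    apply Ex_nonneg (vp_nonneg (by linarith) (by linarith))
    intro X
    split_ifs <;> norm_num
  have hpow : (1 : ℝ) ≤ T ^ (5 * m) * (y * q) ^ H.card := by
    rw [hyq, one_div_pow, ← pow_mul, mul_one_div, le_div_iff₀ (by positivity), one_mul]
    apply pow_le_pow_right₀ hT1
    omega
  calc ∑ a : Fin m → Fin n, Ex (vp (y / 2)) (fun X =>
        if sens f (vr s a) X = H then (1 : ℝ) else 0)
      = 1 * ∑ a : Fin m → Fin n, Ex (vp (y / 2)) (fun X =>
        if sens f (vr s a) X = H then (1 : ℝ) else 0) := by rw [one_mul]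
    _ ≤ (T ^ (5 * m) * (y * q) ^ H.card) * ∑ a : Fin m → Fin n, Ex (vp (y / 2)) (fun X =>
        if sens f (vr s a) X = H then (1 : ℝ) else 0) :=
        mul_le_mul_of_nonneg_right hpow hS0
    _ = T ^ (5 * m) * ((y * q) ^ H.card * ∑ a : Fin m → Fin n, Ex (vp (y / 2)) (fun X =>
        if sens f (vr s a) X = H then (1 : ℝ) else 0)) := by ring
    _ ≤ _ := mul_le_mul_of_nonneg_left hmain (by positivity)

open Classical in
theorem core_bound (hm : 4 < m) (s : Fin m → Fin (r + 1) → Fin m) (hs : ∀ i, s i 0 = i)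
    (hexp : ∀ H : Finset (Fin m), m ≤ 4 * H.card → 3 * m ≤ 4 * (touched s H).card)
    (C : Circuit J) (σ : ((Fin m × (Fin (r + 1) → Fin n)) → Bool) → (J → Bool))
    (hσ : ∀ j, Junta 1 (fun x => σ x j)) {k : ℕ} (hk : 1 ≤ k) {d τ : ℕ} (hτ : 3 ≤ τ)
    (hn : n = ((τ ^ d) ^ 8)) (hdepth : C.depth ≤ d)
    (hcor : ∀ X, C.eval (σ X) = true ↔ Sat s X)
    (T p R : ℝ) (hT : T = (τ : ℝ) ^ d) (hp : p = (1 / T ^ 9) / 2)
    (hR : R = T ^ (5 * m) * ((KK k d : ℝ) ^ m * T ^ (2 * m) + T ^ (8 * m) * epsC C k d τ)) :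
    T ^ (8 * m) * (1 - (m * p + ((1 + n * p) ^ m - 1))) ≤
    ((C.size * (Fintype.card J + C.size + 1) : ℕ) : ℝ) * 2 ^ m * R := by
  have hτ1 : (1 : ℝ) ≤ τ := by exact_mod_cast (by omega : 1 ≤ τ)
  have hT1 : 1 ≤ T := by rw [hT]; exact one_le_pow₀ hτ1
  have hp0 : 0 ≤ p := by rw [hp]; positivity
  have hp1 : p ≤ 1 := by
    have : 1 / T ^ 9 ≤ 1 := by
      rw [div_le_one (by positivity)]
      exact one_le_pow₀ hT1
    rw [hp]; linarith
  have hR0 : 0 ≤ R := by rw [hR]; unfold epsC; positivity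
  set N : ℕ := Fintype.card J + C.size + 1 with hN
  set FF : Finset (Fin C.size × ℕ) :=
    (univ.filter (fun g : Fin C.size => C.gateDepth g ≤ d)) ×ˢ Finset.range N with hFF
  set Med : Finset (Finset (Fin m)) :=
    univ.filter (fun H => m ≤ 4 * H.card ∧ 4 * H.card < 2 * m) with hMed
  -- pointwise
  have hpt : ∀ (a : Fin m → Fin n) (X : (Fin m × (Fin (r + 1) → Fin n)) → Bool),
      (1 : ℝ) - (if ¬ Uniq s a X then (1 : ℝ) else 0) ≤ ∑ gi ∈ FF, ∑ H ∈ Med,
        (if sens (fun x => gfun C gi.1 (σ x) ((pl C gi.1).take gi.2)) (vr s a) X = H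
          then (1 : ℝ) else 0) := by
    intro a X
    have hnn : ∀ gi ∈ FF, (0 : ℝ) ≤ ∑ H ∈ Med,
        (if sens (fun x => gfun C gi.1 (σ x) ((pl C gi.1).take gi.2)) (vr s a) X = H
          then (1 : ℝ) else 0) := by
      intro gi _
      apply Finset.sum_nonneg
      intro H _
      split_ifs <;> norm_num
    by_cases hU : Uniq s a X
    · simp only [hU, not_true, if_false, sub_zero]
      have hsens := uniq_sens (J := J) hU (fun x => C.eval (σ x)) hcor
      obtain ⟨g, hg, i, hi, hM1, hM2⟩ := medium C σ hσ (vr s a) (vr_inj s a)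
        (by simpa using hm) X hdepth (by
          rw [hsens, Finset.card_univ, Fintype.card_fin]; omega)
      have hmem : ((g, i) : Fin C.size × ℕ) ∈ FF := by
        rw [hFF, Finset.mem_product, Finset.mem_filter, Finset.mem_range]
        refine ⟨⟨Finset.mem_univ _, hg⟩, ?_⟩
        have := pl_length C g
        show i < N
        omega
      refine le_trans ?_ (Finset.single_le_sum hnn hmem)
      have hmem2 : sens (fun x => gfun C g (σ x) ((pl C g).take i)) (vr s a) X ∈ Med := by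
        rw [hMed, Finset.mem_filter]
        rw [Fintype.card_fin] at hM1 hM2
        exact ⟨Finset.mem_univ _, hM1, hM2⟩
      refine le_trans ?_ (Finset.single_le_sum (f := fun H =>
        (if sens (fun x => gfun C g (σ x) ((pl C g).take i)) (vr s a) X = H
          then (1 : ℝ) else 0)) (fun H _ => by split_ifs <;> norm_num) hmem2)
      simp
    · simp only [hU, not_false_iff, if_true, sub_self]
      exact Finset.sum_nonneg hnn
  -- expectation
  have hEx : ∀ a : Fin m → Fin n, 1 - (m * p + ((1 + n * p) ^ m - 1)) ≤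
      ∑ gi ∈ FF, ∑ H ∈ Med, Ex (vp p) (fun X =>
        (if sens (fun x => gfun C gi.1 (σ x) ((pl C gi.1).take gi.2)) (vr s a) X = H
          then (1 : ℝ) else 0)) := by
    intro a
    have h1 := Ex_mono (vp_nonneg hp0 hp1) (hpt a)
    rw [Ex_sum] at h1
    simp only [Ex_sum] at h1
    refine le_trans ?_ h1
    have h2 : Ex (vp p) (fun X : (Fin m × (Fin (r + 1) → Fin n)) → Bool =>
        (1 : ℝ) - (if ¬ Uniq s a X then (1 : ℝ) else 0)) =
        1 - Ex (vp p) (fun X : (Fin m × (Fin (r + 1) → Fin n)) → Bool =>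
          (if ¬ Uniq s a X then (1 : ℝ) else 0)) := by
      have h3 := Ex_add (vp p) (fun _ : (Fin m × (Fin (r + 1) → Fin n)) → Bool => (1 : ℝ))
        (fun X => (-1) * (if ¬ Uniq s a X then (1 : ℝ) else 0))
      rw [Ex_smul, Ex_const (vp_sum p)] at h3
      have h4 : (fun X : (Fin m × (Fin (r + 1) → Fin n)) → Bool =>
        (1 : ℝ) - (if ¬ Uniq s a X then (1 : ℝ) else 0)) =
        fun X => 1 + (-1) * (if ¬ Uniq s a X then (1 : ℝ) else 0) := by
        funext X; ring
      rw [h4, h3]; ring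
    rw [h2]
    have h5 := uniq_prob hs a hp0 hp1
    linarith
  -- sum over `a`
  have hsum : T ^ (8 * m) * (1 - (m * p + ((1 + n * p) ^ m - 1))) ≤
      ∑ a : Fin m → Fin n, ∑ gi ∈ FF, ∑ H ∈ Med, Ex (vp p) (fun X =>
        (if sens (fun x => gfun C gi.1 (σ x) ((pl C gi.1).take gi.2)) (vr s a) X = H
          then (1 : ℝ) else 0)) := by
    have h1 : ∑ a : Fin m → Fin n, (1 - (m * p + ((1 + n * p) ^ m - 1))) =
        T ^ (8 * m) * (1 - (m * p + ((1 + n * p) ^ m - 1))) := by
      rw [Finset.sum_const, nsmul_eq_mul]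
      congr 1
      simp only [Finset.card_univ, Fintype.card_fun, Fintype.card_fin]
      rw [Nat.cast_pow]
      nth_rewrite 1 [hn]
      rw [hT, pow_mul]
      push_cast
      rfl
    rw [← h1]
    exact Finset.sum_le_sum fun a _ => hEx a
  refine hsum.trans ?_
  rw [Finset.sum_comm]
  have h6 : ∀ gi ∈ FF, ∑ a : Fin m → Fin n, ∑ H ∈ Med, Ex (vp p) (fun X =>
        (if sens (fun x => gfun C gi.1 (σ x) ((pl C gi.1).take gi.2)) (vr s a) X = H
          then (1 : ℝ) else 0)) ≤ 2 ^ m * R := by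
    rintro ⟨g, i⟩ hgi
    rw [hFF, Finset.mem_product, Finset.mem_filter] at hgi
    rw [Finset.sum_comm]
    have h7 : ∀ H ∈ Med, ∑ a : Fin m → Fin n, Ex (vp p) (fun X =>
        (if sens (fun x => gfun C g (σ x) ((pl C g).take i)) (vr s a) X = H
          then (1 : ℝ) else 0)) ≤ R := by
      intro H hH
      rw [hMed, Finset.mem_filter] at hH
      rw [hR, hp]
      exact bound3 s hexp C σ hσ hk hτ hn g hgi.1.2 i H hH.2.1 hH.2.2 T (1 / T ^ 9)
        ((1 / (τ : ℝ)) ^ d) (epsC C k d τ) hT rfl rfl rfl _ rfl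
    refine (Finset.sum_le_card_nsmul _ _ _ h7).trans ?_
    rw [nsmul_eq_mul]
    apply mul_le_mul_of_nonneg_right _ hR0
    have : Med.card ≤ 2 ^ m := by
      refine (Finset.card_le_univ _).trans ?_
      rw [Fintype.card_finset, Fintype.card_fin]
    exact_mod_cast this
  refine (Finset.sum_le_card_nsmul _ _ _ h6).trans ?_
  rw [nsmul_eq_mul, ← mul_assoc]
  apply mul_le_mul_of_nonneg_right _ hR0
  apply mul_le_mul_of_nonneg_right _ (by positivity)
  rw [hFF, Finset.card_product, Finset.card_range]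
  have : (univ.filter (fun g : Fin C.size => C.gateDepth g ≤ d)).card ≤ C.size := by
    refine (Finset.card_le_univ _).trans ?_
    simp
  exact_mod_cast Nat.mul_le_mul_right N this

end Asm

end H568R2
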