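import Mathlib

namespace H568R2

open Finset

section Hash
variable (P σ : ℕ) [Fact P.Prime]

/-- the hash functions -/
def hashf (hσ : 0 < σ) {n : ℕ} (l : ZMod P × ZMod P) (x : Fin n) : Fin σ :=
  ⟨(l.1 * ((x : ℕ) : ZMod P) + l.2).val % σ, Nat.mod_lt _ hσ⟩

lemma hash_col (hσ : 0 < σ) {n : ℕ} (hn : n ≤ P) (x y : Fin n) (hxy : x ≠ y) :
    (univ.filter (fun l : ZMod P × ZMod P => hashf P σ hσ l x = hashf P σ hσ l y)).card ≤
      P * (P / σ + 1) := by
  classical
  have hP : 0 < P := (Fact.out : P.Prime).pos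
  set φ : ZMod P × ZMod P → ZMod P × ZMod P := fun l =>
    (l.1 * ((x : ℕ) : ZMod P) + l.2, l.1 * ((y : ℕ) : ZMod P) + l.2) with hφ
  have hne : ((x : ℕ) : ZMod P) - ((y : ℕ) : ZMod P) ≠ 0 := by
    rw [sub_ne_zero]
    intro h
    apply hxy
    rw [ZMod.natCast_eq_natCast_iff'] at h
    rw [Nat.mod_eq_of_lt (lt_of_lt_of_le x.2 hn), Nat.mod_eq_of_lt (lt_of_lt_of_le y.2 hn)] at h
    exact Fin.ext h
  have hinj : Function.Injective φ := by
    rintro ⟨a, b⟩ ⟨a', b'⟩ h
    rw [hφ] at h
    simp only [Prod.mk.injEq] at h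
    obtain ⟨h1, h2⟩ := h
    have h3 : (a - a') * (((x : ℕ) : ZMod P) - ((y : ℕ) : ZMod P)) = 0 := by
      linear_combination h1 - h2
    rcases mul_eq_zero.1 h3 with h4 | h4
    · have h5 : a = a' := sub_eq_zero.1 h4
      subst h5
      have h6 : b = b' := by linear_combination h1
      rw [h6]
    · exact absurd h4 hne
  set T : Finset (ZMod P × ZMod P) := (univ : Finset (ZMod P)).biUnion (fun u =>
    (univ.filter (fun v : ZMod P => v.val % σ = u.val % σ)).image (fun v => (u, v))) with hT
  have hsub : (univ.filter (fun l : ZMod P × ZMod P =>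
      hashf P σ hσ l x = hashf P σ hσ l y)).image φ ⊆ T := by
    intro w hw
    obtain ⟨l, hl, rfl⟩ := Finset.mem_image.1 hw
    rw [hT, Finset.mem_biUnion]
    refine ⟨(φ l).1, Finset.mem_univ _, ?_⟩
    rw [Finset.mem_image]
    refine ⟨(φ l).2, ?_, rfl⟩
    rw [Finset.mem_filter]
    refine ⟨Finset.mem_univ _, ?_⟩
    have := (Finset.mem_filter.1 hl).2
    unfold hashf at this
    have h2 := Fin.mk.inj_iff.1 this
    exact h2.symm
  rw [← Finset.card_image_of_injective _ hinj]
  refine (Finset.card_le_card hsub).trans ?_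
  rw [hT]
  refine Finset.card_biUnion_le.trans ?_
  have hb : ∀ u ∈ (univ : Finset (ZMod P)),
      ((univ.filter (fun v : ZMod P => v.val % σ = u.val % σ)).image (fun v => (u, v))).card ≤
      P / σ + 1 := by
    intro u _
    refine Finset.card_image_le.trans ?_
    have h1 : ((univ.filter (fun v : ZMod P => v.val % σ = u.val % σ)).image
        (fun v => v.val / σ)) ⊆ Finset.range (P / σ + 1) := by
      intro w hw
      obtain ⟨v, _, rfl⟩ := Finset.mem_image.1 hw
      rw [Finset.mem_range]
      have : v.val < P := ZMod.val_lt v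
      have := Nat.div_le_div_right (c := σ) this.le
      omega
    have h2 : Set.InjOn (fun v : ZMod P => v.val / σ)
        (univ.filter (fun v : ZMod P => v.val % σ = u.val % σ) : Finset (ZMod P)) := by
      intro v hv w hw h
      simp only [Finset.coe_filter, Finset.mem_univ, true_and, Set.mem_setOf_eq] at hv hw
      have h3 : v.val = w.val := by
        rw [← Nat.div_add_mod v.val σ, ← Nat.div_add_mod w.val σ, hv, hw]
        have h' : v.val / σ = w.val / σ := h
        rw [h']
      exact ZMod.val_injective P h3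
    rw [← Finset.card_image_of_injOn h2]
    refine (Finset.card_le_card h1).trans ?_
    simp
  refine (Finset.sum_le_card_nsmul _ _ _ hb).trans ?_
  rw [Finset.card_univ, ZMod.card, smul_eq_mul]

lemma hash_good {n b : ℕ} (hb : 0 < b) (hn : n ≤ P) (hP : 2 * b < P) (x y : Fin n) (hxy : x ≠ y) :
    (univ.filter (fun l : ZMod P × ZMod P =>
      hashf P (2 * b) (by omega) l x = hashf P (2 * b) (by omega) l y)).card * b <
      Fintype.card (ZMod P × ZMod P) := by
  have h := hash_col P (2 * b) (by omega) hn x y hxy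
  rw [Fintype.card_prod, ZMod.card]
  refine lt_of_le_of_lt (Nat.mul_le_mul_right b h) ?_
  rw [mul_assoc]
  apply Nat.mul_lt_mul_of_pos_left _ (by omega)
  have h1 : P / (2 * b) * (2 * b) ≤ P := Nat.div_mul_le_self P (2 * b)
  nlinarith

end Hash

end H568R2
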