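import Mathlib
import Pool.Agent.H568R2.Defs
import Pool.Agent.H568R2.Assembly
import Pool.Agent.H568R2.Hash
import Pool.Agent.H568R2.Arith

namespace H568R2

open Finset DomAC0

lemma card_Vx (m r n B σ : ℕ) (Λ : Type) [Fintype Λ] :
    Fintype.card (Vx m r n B σ Λ) = m * n ^ r + (B + 1) * (Fintype.card Λ * m ^ (σ ^ m)) := by
  classical
  simp [Vx, Fintype.card_sum, Fintype.card_prod, Fintype.card_fun, Fintype.card_fin]

lemma card_Pairs (N : ℕ) : Fintype.card (Pairs N) ≤ N ^ 2 := by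
  refine (Fintype.card_subtype_le _).trans ?_
  rw [Fintype.card_prod, Fintype.card_fin, pow_two]

theorem main (f : ℕ → ℕ) (C : (n k : ℕ) → Circuit (Pairs n)) (hC : ConstDepthLittleO C) :
    ¬ Approximates C f := by
  classical
  intro hA
  obtain ⟨d, h, gg, hlo, hbd⟩ := hC
  -- the parameter `m`
  have hev : ∀ᶠ k : ℕ in Filter.atTop, ‖gg k‖ ≤ (1 / 1000 : ℝ) * ‖(k : ℝ)‖ :=
    hlo.bound (by norm_num)
  obtain ⟨k0, hk0⟩ := Filter.eventually_atTop.1 hev
  obtain ⟨m', hm'2, hm'k⟩ : ∃ m' : ℕ, 2 ≤ m' ∧ k0 ≤ 1000 * m' :=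
    ⟨max 2 k0, le_max_left _ _, by have := le_max_right 2 k0; omega⟩
  set m : ℕ := 1000 * m' with hm
  have hgm : gg m ≤ (m' : ℝ) := by
    have h1 := hk0 m hm'k
    rw [Real.norm_eq_abs, Real.norm_eq_abs] at h1
    have h2 := le_abs_self (gg m)
    have h3 : |(m : ℝ)| = 1000 * (m' : ℝ) := by
      rw [hm]; push_cast; exact abs_of_nonneg (by positivity)
    rw [h3] at h1
    linarith
  have hm4 : 4 < m := by omega
  have hm1 : 1 ≤ m := by omega
  -- the expanding scopes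
  obtain ⟨F, hF⟩ := expander m hm1
  set s : Fin m → Fin (20 + 1) → Fin m := fun i => Fin.cons i (F i) with hs
  have hs0 : ∀ i, s i 0 = i := fun i => rfl
  have hexp : ∀ H : Finset (Fin m), m ≤ 4 * H.card → 3 * m ≤ 4 * (touched s H).card := by
    intro H hH
    refine (hF H hH).trans ?_
    apply Nat.mul_le_mul_left
    apply Finset.card_le_card
    intro v hv
    unfold touched at hv ⊢
    obtain ⟨i, hi, hvi⟩ := Finset.mem_biUnion.1 hv
    obtain ⟨j, _, rfl⟩ := Finset.mem_image.1 hvi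
    refine Finset.mem_biUnion.2 ⟨i, hi, Finset.mem_image.2 ⟨j.succ, Finset.mem_univ _, ?_⟩⟩
    rfl
  -- constants
  obtain ⟨B, hB⟩ : ∃ B, B = f m * m + 1 := ⟨_, rfl⟩
  obtain ⟨b, hb⟩ : ∃ b, b = B ^ m := ⟨_, rfl⟩
  have hb0 : 0 < b := by rw [hb, hB]; positivity
  obtain ⟨W, hW⟩ : ∃ W, W = m ^ ((2 * b) ^ m) := ⟨_, rfl⟩
  obtain ⟨c1, hc1⟩ : ∃ c1, c1 = m + (B + 1) * (4 * W) := ⟨_, rfl⟩
  obtain ⟨c2, hc2⟩ : ∃ c2, c2 = (h m + 3) ^ 2 * c1 ^ (2 * m') := ⟨_, rfl⟩
  obtain ⟨d', hd'⟩ : ∃ d', d' = d + 1 := ⟨_, rfl⟩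
  obtain ⟨k, hk⟩ : ∃ k, k = d' * (5672 * m') + 1 := ⟨_, rfl⟩
  have hk1 : 1 ≤ k := by omega
  obtain ⟨K, hK⟩ : ∃ K, K = KK k d' := ⟨_, rfl⟩
  obtain ⟨τ, hτ⟩ : ∃ τ, τ = 2 * (c2 * 2 ^ (1000 * m') * K ^ (1000 * m') +
      c2 ^ 2 * 2 ^ (1000 * m') * d' * (4 ^ K * 3) ^ k) + 2 * b + 8 * m + 3 := ⟨_, rfl⟩
  have hτ3 : 3 ≤ τ := by omega
  have hτpos : 0 < τ := by omega
  obtain ⟨n, hn⟩ : ∃ n, n = (τ ^ d') ^ 8 := ⟨_, rfl⟩
  have hTτ : τ ≤ τ ^ d' := Nat.le_self_pow (by omega) τ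
  have hTn : τ ^ d' ≤ n := by rw [hn]; exact Nat.le_self_pow (by norm_num) _
  have hn0 : n ≠ 0 := by omega
  have hn1 : 1 ≤ n := by omega
  -- the prime
  obtain ⟨P, hPp, hPn, hP2⟩ := Nat.exists_prime_lt_and_le_two_mul n hn0
  haveI : Fact P.Prime := ⟨hPp⟩
  have hPb : 2 * b < P := by omega
  -- the graph
  let Λ : Type := ZMod P × ZMod P
  let hsh : Λ → Fin n → Fin (2 * b) := fun l x => hashf P (2 * b) (by omega) l x
  have hcol : ∀ x y : Fin n, x ≠ y →
      (univ.filter (fun l : Λ => hsh l x = hsh l y)).card * B ^ m < Fintype.card Λ := by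
    intro x y hxy
    rw [← hb]
    exact hash_good P hb0 hPn.le hPb x y hxy
  obtain ⟨N, hN⟩ : ∃ N, N = Fintype.card (Vx m (20 + 1) n B (2 * b) Λ) := ⟨_, rfl⟩
  let e : Vx m (20 + 1) n B (2 * b) Λ ≃ Fin N := Fintype.equivFinOfCardEq hN.symm
  have hNval : N = m * n ^ 21 + (B + 1) * (P * P * W) := by
    rw [hN, card_Vx, Fintype.card_prod, ZMod.card, hW]
  have hNle : N ≤ c1 * n ^ 21 := by
    rw [hNval, hc1, add_mul m]
    apply Nat.add_le_add_left
    rw [mul_assoc (B + 1) (4 * W)]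
    apply Nat.mul_le_mul_left
    have h1 : P * P ≤ 4 * n ^ 21 := by
      calc P * P ≤ (2 * n) * (2 * n) := Nat.mul_le_mul hP2 hP2
        _ = 4 * n ^ 2 := by ring
        _ ≤ 4 * n ^ 21 := by
          apply Nat.mul_le_mul_left
          exact Nat.pow_le_pow_right (by omega) (by norm_num)
    calc P * P * W ≤ (4 * n ^ 21) * W := Nat.mul_le_mul_right _ h1
      _ = 4 * W * n ^ 21 := by ring
  have hN1 : 1 ≤ N := by
    rw [hNval]
    have : 1 ≤ m * n ^ 21 := Nat.one_le_iff_ne_zero.2 (by positivity)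
    omega
  -- the circuit and the substitution
  set Cc : Circuit (Pairs N) := C N m with hCc
  obtain ⟨hdep, hsize⟩ := hbd N m hN1 hm1
  let σ : ((Fin m × (Fin (20 + 1) → Fin n)) → Bool) → (Pairs N → Bool) := fun X =>
    adjBits ((GX B s hsh X).comap e.symm)
  have hσ : ∀ j, Junta 1 (fun x => σ x j) := by
    intro j
    exact adj_junta s hsh (e.symm j.1.1) (e.symm j.1.2)
  have hcor : ∀ X, Cc.eval (σ X) = true ↔ Sat s X := by
    intro X
    have hap := hA N m hN1 hm1 ((GX B s hsh X).comap e.symm)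
    have hdn : domNumber ((GX B s hsh X).comap e.symm) = domNumber (GX B s hsh X) :=
      domNumber_comap e (GX B s hsh X)
    rw [hdn] at hap
    constructor
    · intro hev
      by_contra hns
      have h1 := no_case' s hs0 hsh hcol X hns
      have h2 := hap.2 (by omega)
      have h3 : Cc.eval (σ X) = false := h2
      rw [hev] at h3
      cases h3
    · intro hsat
      exact hap.1 (yes_case hm1 s hsh X hsat)
  -- the size bound
  obtain ⟨M, hM⟩ : ∃ M, M = Cc.size * (Fintype.card (Pairs N) + Cc.size + 1) := ⟨_, rfl⟩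
  have hNR1 : (1 : ℝ) ≤ N := by exact_mod_cast hN1
  have hsz : Cc.size ≤ h m * N ^ m' := by
    have h1 : (Cc.size : ℝ) ≤ (h m : ℝ) * (N : ℝ) ^ (m' : ℝ) := by
      refine hsize.trans ?_
      apply mul_le_mul_of_nonneg_left _ (by positivity)
      exact Real.rpow_le_rpow_of_exponent_le hNR1 hgm
    rw [Real.rpow_natCast] at h1
    exact_mod_cast h1
  have hNm : 1 ≤ N ^ m' := Nat.one_le_pow _ _ hN1
  have hN2 : N ^ 2 ≤ N ^ m' := Nat.pow_le_pow_right hN1 hm'2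
  have hMle : M ≤ (h m + 3) ^ 2 * N ^ (2 * m') := by
    have h1 : Fintype.card (Pairs N) + Cc.size + 1 ≤ (h m + 3) * N ^ m' := by
      have := card_Pairs N
      nlinarith
    calc M = Cc.size * (Fintype.card (Pairs N) + Cc.size + 1) := hM
      _ ≤ (h m * N ^ m') * ((h m + 3) * N ^ m') := Nat.mul_le_mul hsz h1
      _ ≤ ((h m + 3) * N ^ m') * ((h m + 3) * N ^ m') := by
          apply Nat.mul_le_mul_right
          apply Nat.mul_le_mul_right
          omega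
      _ = (h m + 3) ^ 2 * N ^ (2 * m') := by ring
  have hMle2 : M ≤ c2 * (τ ^ d') ^ (336 * m') := by
    refine hMle.trans ?_
    rw [hc2, mul_assoc]
    apply Nat.mul_le_mul_left
    calc N ^ (2 * m') ≤ (c1 * n ^ 21) ^ (2 * m') := Nat.pow_le_pow_left hNle _
      _ = c1 ^ (2 * m') * (τ ^ d') ^ (336 * m') := by
          rw [mul_pow, hn, ← pow_mul, ← pow_mul]
          congr 2
          ring
  -- the core bound
  obtain ⟨T, hT⟩ : ∃ T : ℝ, T = (τ : ℝ) ^ d' := ⟨_, rfl⟩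
  have hcore := core_bound (m := m) (n := n) (r := 20) hm4 s hs0 hexp Cc σ hσ hk1 (d := d')
    (τ := τ) hτ3 hn (by rw [hd']; exact hdep.trans (by omega)) hcor T ((1 / T ^ 9) / 2) _ hT rfl rfl
  have hTR : (τ : ℝ) ≤ T := by rw [hT]; exact_mod_cast hTτ
  have hT8 : 8 * (m : ℝ) ≤ T := by
    refine le_trans ?_ hTR
    have : 8 * m ≤ τ := by omega
    exact_mod_cast this
  have hnR : (n : ℝ) = T ^ 8 := by rw [hn, hT]; push_cast; rfl
  have hbad := bad_small m T hT8 hm1 n hnR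
  have hT0 : 0 < T := by
    have : (0 : ℝ) < τ := by exact_mod_cast hτpos
    linarith
  have hfirst : T ^ (8 * m) * (1 / 2 : ℝ) ≤ T ^ (8 * m) * (1 - (m * ((1 / T ^ 9) / 2) +
      ((1 + n * ((1 / T ^ 9) / 2)) ^ m - 1))) := by
    apply mul_le_mul_of_nonneg_left _ (by positivity)
    linarith
  have hfin := hfirst.trans hcore
  refine final_arith m' d' K k c2 τ M T hT (by omega) (by omega) ?_ hk (by omega) ?_
  · rw [hT]; exact_mod_cast hMle2
  · rw [← hm, hM, hK]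
    exact hfin

end H568R2
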